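import Pool.Agent.EWG.StmtsB

/-!
# Sums of `D l (b k)` over `k` (row TPB of squad EWG)

Problem MP_b66c3b_nt.
-/

set_option autoImplicit false

namespace Pool.Agent.EWG.H76

open Finset Pool.Agent.EWG
open scoped BigOperators

theorem one_mod (l : ℕ) (hl : l.Prime) : 1 % l = 1 := Nat.mod_eq_of_lt hl.one_lt

/-- if `l` divides `n` the value is `0` -/
theorem D_zero (l n : ℕ) (hl : l.Prime) (h : l ∣ n) : D l n = 0 := by
  unfold D
  rw [if_pos h, if_neg]
  · ring
  · rw [one_mod l hl, Nat.mod_eq_zero_of_dvd h]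
    exact zero_ne_one

theorem inv_ex (l b : ℕ) (hl : l.Prime) (hb : ¬ l ∣ b) :
    ∃ b' : ℕ, 0 < b' ∧ b' < l ∧ ∀ k : ℕ, (b * k % l = 1 % l ↔ k % l = b') := by
  have hc : Nat.Coprime b l := ((Nat.Prime.coprime_iff_not_dvd hl).2 hb).symm
  obtain ⟨m, -, hm⟩ := Nat.exists_mul_mod_eq_one_of_coprime hc hl.one_lt
  refine ⟨m % l, ?_, Nat.mod_lt _ hl.pos, ?_⟩
  · rcases Nat.eq_zero_or_pos (m % l) with h | h
    · exfalso
      rw [Nat.mul_mod, h, Nat.mul_zero, Nat.zero_mod] at hm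
      exact zero_ne_one hm
    · exact h
  · intro k
    have e : 1 % l = b * m % l := by rw [one_mod l hl, hm]
    rw [e]
    constructor
    · intro h
      exact Nat.ModEq.cancel_left_of_coprime (c := b) (m := l)
        (by rw [Nat.coprime_comm] at hc; exact hc) h
    · intro h
      have h' : Nat.ModEq l k m := h
      exact h'.mul_left b

theorem T_eq (l b : ℕ) (hl : l.Prime) (b' : ℕ) (h0 : 0 < b') (h1 : b' < l)
    (h2 : ∀ k : ℕ, (b * k % l = 1 % l ↔ k % l = b')) (hb : ¬ l ∣ b) (K : ℕ) :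
    ∑ k ∈ Ioc 0 K, D l (b * k) =
      (if b' ≤ K % l then 1 else 0) - ((K % l : ℕ) : ℝ) / ((l : ℝ) - 1) := by
  have hl2 : 2 ≤ l := hl.two_le
  have hl1 : ((l : ℝ) - 1) ≠ 0 := by
    have : (2 : ℝ) ≤ l := by exact_mod_cast hl2
    intro h
    linarith
  induction K with
  | zero =>
    rw [Ioc_self, sum_empty, Nat.zero_mod, if_neg (by omega)]
    simp
  | succ K ih =>
    rw [sum_Ioc_succ_top (Nat.zero_le K), ih]
    have hd : (l ∣ b * (K + 1)) ↔ (K + 1) % l = 0 := by
      rw [hl.dvd_mul]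
      constructor
      · intro h
        rcases h with h | h
        · exact absurd h hb
        · exact Nat.mod_eq_zero_of_dvd h
      · intro h
        exact Or.inr (Nat.dvd_of_mod_eq_zero h)
    rcases Nat.lt_or_ge (K % l + 1) l with hr | hr
    · have e : (K + 1) % l = K % l + 1 := by
        rw [Nat.add_mod, one_mod l hl, Nat.mod_eq_of_lt hr]
      have hD : D l (b * (K + 1)) = (if K % l + 1 = b' then 1 else 0) - 1 / ((l : ℝ) - 1) := by
        unfold D
        have hnd : ¬ l ∣ b * (K + 1) := by rw [hd, e]; omega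
        simp only [h2, e, hnd, if_false]
      rw [hD, e]
      push_cast
      rcases Nat.lt_trichotomy b' (K % l + 1) with h | h | h
      · rw [if_pos (by omega), if_neg (by omega), if_pos (by omega)]
        field_simp
        ring
      · rw [if_neg (by omega), if_pos (by omega), if_pos (by omega)]
        field_simp
        ring
      · rw [if_neg (by omega), if_neg (by omega), if_neg (by omega)]
        field_simp
        ring
    · have hK : K % l < l := Nat.mod_lt _ hl.pos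
      have hKl : K % l = l - 1 := by omega
      have e : (K + 1) % l = 0 := by
        rw [Nat.add_mod, one_mod l hl, hKl, Nat.sub_add_cancel (by omega), Nat.mod_self]
      rw [D_zero l _ hl (hd.2 e), e, hKl, if_pos (by omega), if_neg (by omega)]
      rw [Nat.cast_sub (by omega)]
      push_cast
      rw [div_self hl1]
      simp

theorem T_bd (l b K : ℕ) (hl : l.Prime) : |∑ k ∈ Ioc 0 K, D l (b * k)| ≤ 1 := by
  by_cases hb : l ∣ b
  · rw [sum_eq_zero (fun k _ => D_zero l _ hl (Dvd.dvd.mul_right hb k))]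
    simp
  · obtain ⟨b', h0, h1, h2⟩ := inv_ex l b hl hb
    rw [T_eq l b hl b' h0 h1 h2 hb K]
    have hl2 : 2 ≤ l := hl.two_le
    have hl3 : (0 : ℝ) < (l : ℝ) - 1 := by
      have : (2 : ℝ) ≤ l := by exact_mod_cast hl2
      linarith
    have hr : ((K % l : ℕ) : ℝ) ≤ (l : ℝ) - 1 := by
      have h3 : K % l + 1 ≤ l := Nat.mod_lt _ hl.pos
      have h4 : ((K % l : ℕ) : ℝ) + 1 ≤ l := by exact_mod_cast h3
      linarith
    have hq : ((K % l : ℕ) : ℝ) / ((l : ℝ) - 1) ≤ 1 := (div_le_one hl3).2 hr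
    have hq0 : 0 ≤ ((K % l : ℕ) : ℝ) / ((l : ℝ) - 1) := by positivity
    rw [abs_le]
    split_ifs
    · constructor <;> linarith
    · constructor <;> linarith

theorem abel (f : ℕ → ℝ) (h : ∀ K, |∑ k ∈ Ioc 0 K, f k| ≤ 1) (K : ℕ) :
    |∑ k ∈ Ioc 0 K, Real.log k * f k - Real.log K * ∑ k ∈ Ioc 0 K, f k| ≤ Real.log K := by
  induction K with
  | zero => simp
  | succ K ih =>
    rw [sum_Ioc_succ_top (Nat.zero_le K), sum_Ioc_succ_top (Nat.zero_le K)]
    have hlog : Real.log (K : ℝ) ≤ Real.log ((K + 1 : ℕ) : ℝ) := by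
      rcases Nat.eq_zero_or_pos K with h0 | h0
      · rw [h0]
        simp
      · apply Real.log_le_log (by exact_mod_cast h0)
        push_cast
        linarith
    have e : ∑ k ∈ Ioc 0 K, Real.log k * f k + Real.log ((K + 1 : ℕ) : ℝ) * f (K + 1) -
        Real.log ((K + 1 : ℕ) : ℝ) * (∑ k ∈ Ioc 0 K, f k + f (K + 1)) =
        (∑ k ∈ Ioc 0 K, Real.log k * f k - Real.log K * ∑ k ∈ Ioc 0 K, f k) -
        (Real.log ((K + 1 : ℕ) : ℝ) - Real.log K) * ∑ k ∈ Ioc 0 K, f k := by ring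
    rw [e]
    have h1 : |(Real.log ((K + 1 : ℕ) : ℝ) - Real.log K) * ∑ k ∈ Ioc 0 K, f k| ≤
        Real.log ((K + 1 : ℕ) : ℝ) - Real.log K := by
      rw [abs_mul, abs_of_nonneg (by linarith : 0 ≤ Real.log ((K + 1 : ℕ) : ℝ) - Real.log K)]
      exact mul_le_of_le_one_right (by linarith) (h K)
    have h2 := abs_sub (∑ k ∈ Ioc 0 K, Real.log k * f k - Real.log K * ∑ k ∈ Ioc 0 K, f k)
      ((Real.log ((K + 1 : ℕ) : ℝ) - Real.log K) * ∑ k ∈ Ioc 0 K, f k)
    linarith

theorem tpb : TpbStmt := by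
  intro l b K hl
  refine ⟨T_bd l b K hl, ?_⟩
  have h1 := abel (fun k => D l (b * k)) (fun K => T_bd l b K hl) K
  have h2 := T_bd l b K hl
  have h3 : 0 ≤ Real.log (K : ℝ) := Real.log_natCast_nonneg K
  have h4 : |Real.log (K : ℝ) * ∑ k ∈ Ioc 0 K, D l (b * k)| ≤ Real.log K := by
    rw [abs_mul, abs_of_nonneg h3]
    exact mul_le_of_le_one_right h3 h2
  rw [abs_le] at h1 h4 ⊢
  constructor <;> linarith [h1.1, h1.2, h4.1, h4.2]

end Pool.Agent.EWG.H76
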